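import Mathlib
import Pool.Agent.Helper170.Mertens

/-! Counting multiples among `n+1, …, n+k`, prime valuations and first moments. -/

set_option autoImplicit false

open Finset

namespace Pool.Agent.Helper46_SS

/-- the primes up to `r` -/
def PP (r : ℕ) : Finset ℕ := (Icc 1 r).filter Nat.Prime

/-- number of `i ∈ [1, k]` with `d ∣ n + i` -/
def cnt (n k d : ℕ) : ℕ := ((Icc 1 k).filter (fun i => d ∣ n + i)).card

lemma cnt_eq (n k d : ℕ) : cnt n k d = (n + k) / d - n / d := by
  unfold cnt
  induction k with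
  | zero => simp
  | succ k ih =>
    have h1 : Icc 1 (k + 1) = insert (k + 1) (Icc 1 k) := by
      ext x; simp only [mem_Icc, mem_insert]; omega
    have h2 : (k + 1) ∉ (Icc 1 k) := by simp
    rw [h1, filter_insert]
    have h3 : (n + (k + 1)) / d = (n + k) / d + if d ∣ n + k + 1 then 1 else 0 := by
      rw [← Nat.succ_div]; rfl
    have h4 : n / d ≤ (n + k) / d := Nat.div_le_div_right (by omega)
    by_cases h : d ∣ n + (k + 1)
    · rw [if_pos h, card_insert_of_notMem (by simp), ih, h3, if_pos (by exact h)]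
      omega
    · rw [if_neg h, ih, h3, if_neg (by exact h)]
      omega

lemma cnt_le_div_add_one (n k d : ℕ) (hd : 0 < d) : cnt n k d ≤ k / d + 1 := by
  rw [cnt_eq, Nat.add_div hd]
  generalize k / d = q
  generalize n / d = q'
  split_ifs <;> omega

lemma cnt_le (n k d : ℕ) (hd : 0 < d) : (cnt n k d : ℝ) ≤ k / d + 1 := by
  have h1 := cnt_le_div_add_one n k d hd
  have h2 : ((k / d : ℕ) : ℝ) ≤ (k : ℝ) / d := Nat.cast_div_le
  have h3 : (cnt n k d : ℝ) ≤ ((k / d : ℕ) : ℝ) + 1 := by exact_mod_cast h1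
  linarith

lemma cnt_ge (n k d : ℕ) (hd : 0 < d) : (k : ℝ) / d - 1 ≤ cnt n k d := by
  have h0 : k / d ≤ cnt n k d := by
    rw [cnt_eq, Nat.add_div hd]
    generalize k / d = q
    generalize n / d = q'
    split_ifs <;> omega
  have h3 : (k : ℝ) / d - 1 ≤ ((k / d : ℕ) : ℝ) := by
    have := Nat.lt_floor_add_one ((k : ℝ) / d)
    rw [Nat.floor_div_natCast, Nat.floor_natCast] at this
    linarith
  have h4 : ((k / d : ℕ) : ℝ) ≤ cnt n k d := by exact_mod_cast h0
  linarith

/-- an index in `[1, k]` where the `p`-adic valuation of `n + i` is maximal -/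
lemma exists_top (n k : ℕ) (hk : 1 ≤ k) (p : ℕ) : ∃ i ∈ Icc 1 k, ∀ j ∈ Icc 1 k,
    (n + j).factorization p ≤ (n + i).factorization p := by
  obtain ⟨i, hi, h⟩ := (Icc 1 k).exists_max_image (fun j => (n + j).factorization p)
    ⟨1, by simp [hk]⟩
  exact ⟨i, hi, h⟩

open Classical in
/-- the exceptional index attached to the prime `p` -/
noncomputable def top (n k p : ℕ) : ℕ :=
  if hk : 1 ≤ k then (exists_top n k hk p).choose else 0

lemma top_mem (n k p : ℕ) (hk : 1 ≤ k) : top n k p ∈ Icc 1 k := by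
  unfold top; rw [dif_pos hk]; exact (exists_top n k hk p).choose_spec.1

lemma top_max (n k p : ℕ) (hk : 1 ≤ k) (j : ℕ) (hj : j ∈ Icc 1 k) :
    (n + j).factorization p ≤ (n + top n k p).factorization p := by
  unfold top; rw [dif_pos hk]; exact (exists_top n k hk p).choose_spec.2 j hj

/-- the exceptional set -/
noncomputable def EE (n k : ℕ) : Finset ℕ := (PP k).image (top n k)

lemma EE_card (n k : ℕ) : (EE n k).card ≤ (PP k).card := card_image_le

/-- away from the exceptional set there are at most `⌊k / p^e⌋` multiples of `p ^ e` -/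
lemma cnt_off (n k p e : ℕ) (hk : 1 ≤ k) (hp : p.Prime) (hpk : p ≤ k) :
    (((Icc 1 k).filter (fun i => p ^ e ∣ n + i ∧ i ∉ EE n k)).card) ≤ k / p ^ e := by
  have hpe : 0 < p ^ e := pow_pos hp.pos e
  by_cases h : ∃ j ∈ Icc 1 k, p ^ e ∣ n + j
  · obtain ⟨j, hj, hjd⟩ := h
    have ht := top_mem n k p hk
    have h1 : p ^ e ∣ n + top n k p := by
      have h2 := top_max n k p hk j hj
      have hj1 : 1 ≤ j := (mem_Icc.1 hj).1
      have ht1 : 1 ≤ top n k p := (mem_Icc.1 ht).1
      rw [hp.pow_dvd_iff_le_factorization (by omega)] at hjd ⊢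
      omega
    have hE : top n k p ∈ EE n k := by
      unfold EE
      exact mem_image_of_mem _ (by unfold PP; rw [mem_filter, mem_Icc]; exact ⟨⟨hp.one_lt.le, hpk⟩, hp⟩)
    have h3 : ((Icc 1 k).filter (fun i => p ^ e ∣ n + i ∧ i ∉ EE n k)) ⊆
        ((Icc 1 k).filter (fun i => p ^ e ∣ n + i)).erase (top n k p) := by
      intro x hx
      rw [mem_filter] at hx
      rw [mem_erase, mem_filter]
      refine ⟨?_, hx.1, hx.2.1⟩
      rintro rfl
      exact hx.2.2 hE
    have h4 := card_le_card h3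
    rw [card_erase_of_mem (by rw [mem_filter]; exact ⟨ht, h1⟩)] at h4
    have h5 := cnt_le_div_add_one n k (p ^ e) hpe
    unfold cnt at h5
    generalize k / p ^ e = q at *
    omega
  · push Not at h
    have : ((Icc 1 k).filter (fun i => p ^ e ∣ n + i ∧ i ∉ EE n k)) = ∅ := by
      rw [filter_eq_empty_iff]
      intro x hx hx2
      exact h x hx hx2.1
    rw [this]; simp

/-- the smooth part of order at most `r`, distinct primes -/
noncomputable def YY (n r i : ℕ) : ℝ := ∑ p ∈ (PP r).filter (fun p => p ∣ n + i), Real.log p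

/-- indices of the `k`-smooth numbers off the exceptional set -/
noncomputable def MM (n k : ℕ) : Finset ℕ :=
  (Icc 1 k).filter (fun i => (∀ p ∈ (n + i).primeFactors, p ≤ k) ∧ i ∉ EE n k)

lemma fact_card (n k i p : ℕ) (hi : i ∈ Icc 1 k) (hp : p.Prime) :
    (n + i).factorization p = ((Ico 1 (n + k + 1)).filter (fun e => p ^ e ∣ n + i)).card := by
  rw [mem_Icc] at hi
  apply Nat.factorization_eq_card_pow_dvd_of_lt hp (by omega)
  calc n + i < n + k + 1 := by omega
    _ < 2 ^ (n + k + 1) := Nat.lt_two_pow_self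
    _ ≤ p ^ (n + k + 1) := Nat.pow_le_pow_left hp.two_le _

lemma log_eq (n k i : ℕ) (hi : i ∈ MM n k) :
    Real.log ((n + i : ℕ) : ℝ) = ∑ p ∈ PP k, ((n + i).factorization p : ℝ) * Real.log p := by
  unfold MM at hi
  rw [mem_filter, mem_Icc] at hi
  rw [Real.log_nat_eq_sum_factorization, Finsupp.sum]
  apply Finset.sum_subset
  · intro p hp
    rw [Nat.support_factorization] at hp
    unfold PP
    rw [mem_filter, mem_Icc]
    exact ⟨⟨(Nat.prime_of_mem_primeFactors hp).one_lt.le, hi.2.1 p hp⟩,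
      Nat.prime_of_mem_primeFactors hp⟩
  · intro p _ hp
    rw [Finsupp.notMem_support_iff] at hp
    rw [hp]; simp

/-- for one prime: the sum of the valuations over the smooth indices off `E` -/
lemma val_sum (n k p : ℕ) (hk : 1 ≤ k) (hp : p.Prime) (hpk : p ≤ k) :
    ∑ i ∈ MM n k, (n + i).factorization p ≤ k.factorial.factorization p := by
  have h1 : ∀ i ∈ MM n k, (n + i).factorization p =
      ∑ e ∈ Ico 1 (n + k + 1), if p ^ e ∣ n + i then 1 else 0 := by
    intro i hi
    rw [fact_card n k i p (filter_subset _ _ hi) hp, card_filter]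
  rw [sum_congr rfl h1, sum_comm]
  rw [Nat.factorization_factorial hp (b := n + k + 1)
    (lt_of_le_of_lt (Nat.log_le_self p k) (by omega))]
  apply sum_le_sum
  intro e _
  rw [← card_filter]
  refine le_trans (card_le_card ?_) (cnt_off n k p e hk hp hpk)
  intro i hi
  unfold MM at hi
  rw [mem_filter, mem_filter] at hi
  rw [mem_filter]
  exact ⟨hi.1.1, hi.2, hi.1.2.2⟩

/-- the same with the first power removed -/
lemma val_sum' (n k p : ℕ) (hk : 1 ≤ k) (hp : p.Prime) (hpk : p ≤ k) :
    ∑ i ∈ MM n k, (n + i).factorization p + k / p ≤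
      k.factorial.factorization p + ((MM n k).filter (fun i => p ∣ n + i)).card := by
  have h1 : ∀ i ∈ MM n k, (n + i).factorization p =
      ∑ e ∈ Ico 1 (n + k + 1), if p ^ e ∣ n + i then 1 else 0 := by
    intro i hi
    rw [fact_card n k i p (filter_subset _ _ hi) hp, card_filter]
  rw [sum_congr rfl h1, sum_comm]
  rw [Nat.factorization_factorial hp (b := n + k + 1)
    (lt_of_le_of_lt (Nat.log_le_self p k) (by omega))]
  have h2 : Ico 1 (n + k + 1) = insert 1 (Ico 2 (n + k + 1)) := by
    ext x; simp only [mem_Ico, mem_insert]; omega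
  have h3 : 1 ∉ Ico 2 (n + k + 1) := by simp
  rw [h2, sum_insert h3, sum_insert h3, pow_one]
  have h4 : ∑ e ∈ Ico 2 (n + k + 1), ∑ i ∈ MM n k, (if p ^ e ∣ n + i then 1 else 0) ≤
      ∑ e ∈ Ico 2 (n + k + 1), k / p ^ e := by
    apply sum_le_sum
    intro e _
    rw [← card_filter]
    refine le_trans (card_le_card ?_) (cnt_off n k p e hk hp hpk)
    intro i hi
    unfold MM at hi
    rw [mem_filter, mem_filter] at hi
    rw [mem_filter]
    exact ⟨hi.1.1, hi.2, hi.1.2.2⟩
  rw [← card_filter]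
  omega

end Pool.Agent.Helper46_SS
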