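import Mathlib
import Pool.Agent.Helper46_SS.Count

/-! First and second moments of the small prime factors of `n+1, …, n+k`. -/

set_option autoImplicit false

open Finset

namespace Pool.Agent.Helper46_SS

/-- partial sums of `log p / p` -/
noncomputable def AA (r : ℕ) : ℝ := ∑ p ∈ PP r, Real.log p / p

/-- partial sums of `(log p)^2 / p` -/
noncomputable def BB (r : ℕ) : ℝ := ∑ p ∈ PP r, Real.log p ^ 2 / p

/-- partial sums of `log p` -/
noncomputable def TT (r : ℕ) : ℝ := ∑ p ∈ PP r, Real.log p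

lemma PP_succ (r : ℕ) (f : ℕ → ℝ) :
    ∑ p ∈ PP (r + 1), f p = ∑ p ∈ PP r, f p + if (r + 1).Prime then f (r + 1) else 0 := by
  unfold PP
  rw [sum_filter, sum_filter, sum_Icc_succ_top (by omega)]

lemma BB_eq (r : ℕ) : BB (r + 1) + ∑ m ∈ Icc 1 r, AA m * (Real.log (m + 1 : ℕ) - Real.log m) =
    AA (r + 1) * Real.log (r + 1 : ℕ) := by
  induction r with
  | zero => simp [BB, AA, PP, sum_filter, Nat.not_prime_one]
  | succ r ih =>
    rw [sum_Icc_succ_top (by omega)]
    have h1 : BB (r + 1 + 1) = BB (r + 1) + if (r + 1 + 1).Prime then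
      Real.log (r + 1 + 1 : ℕ) ^ 2 / (r + 1 + 1 : ℕ) else 0 := PP_succ _ _
    have h2 : AA (r + 1 + 1) = AA (r + 1) + if (r + 1 + 1).Prime then
      Real.log (r + 1 + 1 : ℕ) / (r + 1 + 1 : ℕ) else 0 := PP_succ _ _
    rw [h1, h2]
    by_cases h : (r + 1 + 1).Prime
    · rw [if_pos h, if_pos h]
      linear_combination ih
    · rw [if_neg h, if_neg h]
      linear_combination ih

lemma logsum (r : ℕ) : Real.log (r + 1 : ℕ) ^ 2 / 2 - Real.log 2 / 2 * Real.log (r + 1 : ℕ) ≤
    ∑ m ∈ Icc 1 r, Real.log m * (Real.log (m + 1 : ℕ) - Real.log m) := by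
  induction r with
  | zero => simp
  | succ r ih =>
    rw [sum_Icc_succ_top (by omega)]
    set a := Real.log (r + 1 : ℕ)
    set b := Real.log (r + 1 + 1 : ℕ)
    have hab : a ≤ b := Real.log_le_log (by positivity) (by push_cast; linarith)
    have h2 : b - a ≤ Real.log 2 := by
      have : b ≤ Real.log (2 * (r + 1 : ℕ)) := Real.log_le_log (by positivity) (by
        push_cast; nlinarith [show (0:ℝ) ≤ r from Nat.cast_nonneg r])
      rw [Real.log_mul (by norm_num) (by positivity)] at this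
      linarith
    nlinarith [mul_nonneg (sub_nonneg.2 hab) (sub_nonneg.2 h2)]

lemma telesc (r : ℕ) : ∑ m ∈ Icc 1 r, (Real.log (m + 1 : ℕ) - Real.log m) = Real.log (r + 1 : ℕ) := by
  induction r with
  | zero => simp
  | succ r ih =>
    rw [sum_Icc_succ_top (by omega), ih]
    ring

/-- Constants: Mertens and the second moment. -/
theorem AB_bound : ∃ C : ℝ, 0 ≤ C ∧ ∀ r : ℕ, 1 ≤ r → |AA r - Real.log r| ≤ C ∧
    BB r ≤ Real.log r ^ 2 / 2 + C * Real.log r := by
  obtain ⟨C, hC⟩ := Pool.Agent.Helper170.Mertens.sum_log_div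
  have hC0 : 0 ≤ C := le_trans (abs_nonneg _) (hC 1 le_rfl)
  have hl2 : 0 ≤ Real.log 2 := Real.log_nonneg (by norm_num)
  refine ⟨2 * C + Real.log 2, by positivity, ?_⟩
  intro r hr
  have hA : ∀ m : ℕ, 1 ≤ m → |AA m - Real.log m| ≤ C := fun m hm => hC m hm
  refine ⟨le_trans (hA r hr) (by linarith), ?_⟩
  obtain ⟨s, rfl⟩ : ∃ s, r = s + 1 := ⟨r - 1, by omega⟩
  have h1 := BB_eq s
  have h2 := logsum s
  have h3 : ∑ m ∈ Icc 1 s, (Real.log m - C) * (Real.log (m + 1 : ℕ) - Real.log m) ≤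
      ∑ m ∈ Icc 1 s, AA m * (Real.log (m + 1 : ℕ) - Real.log m) := by
    apply sum_le_sum
    intro m hm
    have hm1 := (mem_Icc.1 hm).1
    apply mul_le_mul_of_nonneg_right
    · linarith [(abs_le.1 (hA m hm1)).1]
    · rw [sub_nonneg]
      exact Real.log_le_log (by exact_mod_cast hm1) (by push_cast; linarith)
  have h4 : ∑ m ∈ Icc 1 s, (Real.log m - C) * (Real.log (m + 1 : ℕ) - Real.log m) =
      ∑ m ∈ Icc 1 s, Real.log m * (Real.log (m + 1 : ℕ) - Real.log m) -
        C * Real.log (s + 1 : ℕ) := by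
    rw [← telesc s, mul_sum, ← sum_sub_distrib]
    apply sum_congr rfl
    intro m _
    ring
  have h5 := (abs_le.1 (hA (s + 1) hr)).2
  have h6 : 0 ≤ Real.log (s + 1 : ℕ) := Real.log_natCast_nonneg _
  set l := Real.log (s + 1 : ℕ)
  have h7 : AA (s + 1) * l ≤ (l + C) * l := mul_le_mul_of_nonneg_right (by linarith) h6
  nlinarith

lemma TT_le (r : ℕ) : TT r ≤ Real.log 4 * r := by
  have h := Chebyshev.theta_le_log4_mul_x (x := (r : ℝ)) (Nat.cast_nonneg r)
  rw [Chebyshev.theta_eq_sum_Icc] at h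
  refine le_trans (le_of_eq ?_) h
  unfold TT PP
  have e : ((Icc 0 ⌊(r:ℝ)⌋₊).filter Nat.Prime) = (Icc 1 r).filter Nat.Prime := by
    ext p
    simp only [mem_filter, mem_Icc, Nat.floor_natCast]
    constructor
    · rintro ⟨⟨_, h⟩, hp⟩
      exact ⟨⟨hp.one_lt.le, h⟩, hp⟩
    · rintro ⟨⟨_, h⟩, hp⟩
      exact ⟨⟨Nat.zero_le _, h⟩, hp⟩
  rw [e]

lemma log_nonneg' (p : ℕ) : 0 ≤ Real.log p := Real.log_natCast_nonneg p

lemma TT_nonneg (r : ℕ) : 0 ≤ TT r := sum_nonneg (fun p _ => log_nonneg' p)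

lemma PP_pos {r p : ℕ} (h : p ∈ PP r) : 0 < p := by
  unfold PP at h; rw [mem_filter] at h; exact h.2.pos

lemma PP_prime {r p : ℕ} (h : p ∈ PP r) : p.Prime := by
  unfold PP at h; rw [mem_filter] at h; exact h.2

lemma PP_le {r p : ℕ} (h : p ∈ PP r) : p ≤ r := by
  unfold PP at h; rw [mem_filter, mem_Icc] at h; exact h.1.2

/-- the first moment of `YY` -/
lemma sum_YY (n k r : ℕ) : ∑ i ∈ Icc 1 k, YY n r i = ∑ p ∈ PP r, (cnt n k p : ℝ) * Real.log p := by
  unfold YY
  simp_rw [sum_filter]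
  rw [sum_comm]
  apply sum_congr rfl
  intro p _
  rw [← sum_filter, sum_const, nsmul_eq_mul]
  rfl

lemma sum_YY_le (n k r : ℕ) : ∑ i ∈ Icc 1 k, YY n r i ≤ k * AA r + TT r := by
  rw [sum_YY]
  unfold AA TT
  rw [mul_sum, ← sum_add_distrib]
  apply sum_le_sum
  intro p hp
  have h1 := cnt_le n k p (PP_pos hp)
  calc (cnt n k p : ℝ) * Real.log p ≤ (k / p + 1) * Real.log p :=
        mul_le_mul_of_nonneg_right h1 (log_nonneg' p)
    _ = k * (Real.log p / p) + Real.log p := by ring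

lemma sum_YY_ge (n k r : ℕ) : k * AA r - TT r ≤ ∑ i ∈ Icc 1 k, YY n r i := by
  rw [sum_YY]
  unfold AA TT
  rw [mul_sum, ← sum_sub_distrib]
  apply sum_le_sum
  intro p hp
  have h1 := cnt_ge n k p (PP_pos hp)
  calc k * (Real.log p / p) - Real.log p = (k / p - 1) * Real.log p := by ring
    _ ≤ (cnt n k p : ℝ) * Real.log p :=
        mul_le_mul_of_nonneg_right h1 (log_nonneg' p)

lemma pair_cnt (n k p q : ℕ) (hp : p.Prime) (hq : q.Prime) :
    (((Icc 1 k).filter (fun i => p ∣ n + i ∧ q ∣ n + i)).card : ℝ) ≤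
      k / (p * q) + 1 + if p = q then (k : ℝ) / p else 0 := by
  have hp0 : (0 : ℝ) < p := by exact_mod_cast hp.pos
  have hq0 : (0 : ℝ) < q := by exact_mod_cast hq.pos
  by_cases h : p = q
  · subst h
    rw [if_pos rfl]
    have h1 := cnt_le n k p hp.pos
    unfold cnt at h1
    have h2 : ((Icc 1 k).filter (fun i => p ∣ n + i ∧ p ∣ n + i)) =
        ((Icc 1 k).filter (fun i => p ∣ n + i)) := by
      apply filter_congr; intro x _; tauto
    rw [h2]
    have h3 : 0 ≤ (k : ℝ) / (p * p) := by positivity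
    linarith
  · rw [if_neg h]
    have h1 := cnt_le n k (p * q) (mul_pos hp.pos hq.pos)
    unfold cnt at h1
    have hc : Nat.Coprime p q := (Nat.coprime_primes hp hq).2 h
    have h2 : ((Icc 1 k).filter (fun i => p ∣ n + i ∧ q ∣ n + i)) ⊆
        ((Icc 1 k).filter (fun i => p * q ∣ n + i)) := by
      intro x hx
      rw [mem_filter] at hx ⊢
      exact ⟨hx.1, hc.mul_dvd_of_dvd_of_dvd hx.2.1 hx.2.2⟩
    have h3 : (((Icc 1 k).filter (fun i => p ∣ n + i ∧ q ∣ n + i)).card : ℝ) ≤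
        ((Icc 1 k).filter (fun i => p * q ∣ n + i)).card := by exact_mod_cast card_le_card h2
    push_cast at h1
    linarith

/-- the second moment of `YY` -/
lemma sum_YY_sq (n k r : ℕ) :
    ∑ i ∈ Icc 1 k, YY n r i ^ 2 ≤ k * AA r ^ 2 + TT r ^ 2 + k * BB r := by
  have h1 : ∑ i ∈ Icc 1 k, YY n r i ^ 2 = ∑ p ∈ PP r, ∑ q ∈ PP r,
      (((Icc 1 k).filter (fun i => p ∣ n + i ∧ q ∣ n + i)).card : ℝ) *
        (Real.log p * Real.log q) := by
    have h2 : ∀ i, YY n r i ^ 2 = ∑ p ∈ PP r, ∑ q ∈ PP r,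
        if (p ∣ n + i ∧ q ∣ n + i) then Real.log p * Real.log q else 0 := by
      intro i
      unfold YY
      rw [sq, sum_filter, sum_mul_sum]
      apply sum_congr rfl
      intro p _
      apply sum_congr rfl
      intro q _
      by_cases hp : p ∣ n + i <;> by_cases hq : q ∣ n + i <;> simp [hp, hq]
    simp_rw [h2]
    rw [sum_comm]
    apply sum_congr rfl
    intro p _
    rw [sum_comm]
    apply sum_congr rfl
    intro q _
    rw [← sum_filter, sum_const, nsmul_eq_mul]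
  rw [h1]
  have h3 : ∑ p ∈ PP r, ∑ q ∈ PP r,
      (((Icc 1 k).filter (fun i => p ∣ n + i ∧ q ∣ n + i)).card : ℝ) *
        (Real.log p * Real.log q) ≤ ∑ p ∈ PP r, ∑ q ∈ PP r,
      (k * (Real.log p / p) * (Real.log q / q) + Real.log p * Real.log q +
        if p = q then (k : ℝ) * (Real.log p ^ 2 / p) else 0) := by
    apply sum_le_sum
    intro p hp
    apply sum_le_sum
    intro q hq
    have hp0 : (p : ℝ) ≠ 0 := by exact_mod_cast (PP_pos hp).ne'
    have hq0 : (q : ℝ) ≠ 0 := by exact_mod_cast (PP_pos hq).ne'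
    have h4 := pair_cnt n k p q (PP_prime hp) (PP_prime hq)
    have h5 : 0 ≤ Real.log p * Real.log q := mul_nonneg (log_nonneg' p) (log_nonneg' q)
    refine le_trans (mul_le_mul_of_nonneg_right h4 h5) (le_of_eq ?_)
    by_cases h : p = q
    · subst h
      rw [if_pos rfl, if_pos rfl]
      field_simp
    · rw [if_neg h, if_neg h]
      field_simp
      ring
  refine le_trans h3 (le_of_eq ?_)
  have e1 : ∑ p ∈ PP r, ∑ q ∈ PP r,
      (k * (Real.log p / p) * (Real.log q / q) + Real.log p * Real.log q +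
        if p = q then (k : ℝ) * (Real.log p ^ 2 / p) else 0) =
      ∑ p ∈ PP r, ∑ q ∈ PP r, k * (Real.log p / p) * (Real.log q / q) +
      ∑ p ∈ PP r, ∑ q ∈ PP r, Real.log p * Real.log q +
      ∑ p ∈ PP r, ∑ q ∈ PP r, (if p = q then (k : ℝ) * (Real.log p ^ 2 / p) else 0) := by
    simp_rw [sum_add_distrib]
  rw [e1]
  have e2 : ∑ p ∈ PP r, ∑ q ∈ PP r, k * (Real.log p / p) * (Real.log q / q) = k * AA r ^ 2 := by
    unfold AA
    rw [sq, sum_mul_sum, mul_sum]
    apply sum_congr rfl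
    intro p _
    rw [mul_sum]
    apply sum_congr rfl
    intro q _
    ring
  have e3 : ∑ p ∈ PP r, ∑ q ∈ PP r, Real.log p * Real.log q = TT r ^ 2 := by
    unfold TT
    rw [sq, sum_mul_sum]
  have e4 : ∑ p ∈ PP r, ∑ q ∈ PP r, (if p = q then (k : ℝ) * (Real.log p ^ 2 / p) else 0) =
      k * BB r := by
    unfold BB
    rw [mul_sum]
    apply sum_congr rfl
    intro p hp
    rw [sum_ite_eq, if_pos hp]
  rw [e2, e3, e4]

/-- the variance around an arbitrary centre -/
lemma variance (n k r : ℕ) (c : ℝ) (hc : 0 ≤ c) :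
    ∑ i ∈ Icc 1 k, (YY n r i - c) ^ 2 ≤
      k * (AA r - c) ^ 2 + k * BB r + TT r ^ 2 + 2 * c * TT r := by
  have h1 : ∑ i ∈ Icc 1 k, (YY n r i - c) ^ 2 = ∑ i ∈ Icc 1 k, YY n r i ^ 2 -
      2 * c * ∑ i ∈ Icc 1 k, YY n r i + k * c ^ 2 := by
    have : ∀ i, (YY n r i - c) ^ 2 = YY n r i ^ 2 - 2 * c * YY n r i + c ^ 2 := by
      intro i; ring
    simp_rw [this]
    rw [sum_add_distrib, sum_sub_distrib, ← mul_sum]
    simp
  rw [h1]
  have h2 := sum_YY_sq n k r
  have h3 := sum_YY_ge n k r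
  nlinarith

/-- large part of the smooth numbers -/
lemma large_part (n k r : ℕ) (hk : 1 ≤ k) (hr : r ≤ k) :
    ∑ i ∈ MM n k, (Real.log ((n + i : ℕ) : ℝ) - YY n r i) ≤
      k * Real.log k - k * AA r + TT r := by
  have h1 : ∀ i ∈ MM n k, Real.log ((n + i : ℕ) : ℝ) - YY n r i =
      ∑ p ∈ PP k, (((n + i).factorization p : ℝ) -
        if (p ≤ r ∧ p ∣ n + i) then 1 else 0) * Real.log p := by
    intro i hi
    rw [log_eq n k i hi]
    unfold YY
    have h2 : ∑ p ∈ (PP r).filter (fun p => p ∣ n + i), Real.log p =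
        ∑ p ∈ PP k, (if (p ≤ r ∧ p ∣ n + i) then (1:ℝ) else 0) * Real.log p := by
      simp_rw [ite_mul, one_mul, zero_mul]
      rw [← sum_filter]
      apply sum_congr _ (fun _ _ => rfl)
      ext p
      unfold PP
      simp only [mem_filter, mem_Icc]
      constructor
      · rintro ⟨⟨⟨a, b⟩, c⟩, d⟩
        exact ⟨⟨⟨a, by omega⟩, c⟩, b, d⟩
      · rintro ⟨⟨⟨a, b⟩, c⟩, d, e⟩
        exact ⟨⟨⟨a, d⟩, c⟩, e⟩
    rw [h2, ← sum_sub_distrib]
    apply sum_congr rfl
    intro p _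
    ring
  rw [sum_congr rfl h1, sum_comm]
  have h3 : ∀ p ∈ PP k, ∑ i ∈ MM n k, (((n + i).factorization p : ℝ) -
        if (p ≤ r ∧ p ∣ n + i) then 1 else 0) * Real.log p ≤
      ((k.factorial.factorization p : ℝ) - if p ≤ r then ((k / p : ℕ) : ℝ) else 0) *
        Real.log p := by
    intro p hp
    rw [← sum_mul]
    apply mul_le_mul_of_nonneg_right _ (log_nonneg' p)
    rw [sum_sub_distrib]
    by_cases hpr : p ≤ r
    · rw [if_pos hpr]
      have h4 := val_sum' n k p hk (PP_prime hp) (PP_le hp)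
      have h5 : ∑ i ∈ MM n k, (if (p ≤ r ∧ p ∣ n + i) then (1:ℝ) else 0) =
          ((MM n k).filter (fun i => p ∣ n + i)).card := by
        rw [← sum_filter, sum_const, nsmul_eq_mul, mul_one]
        congr 2
        apply filter_congr
        intro x _
        simp [hpr]
      rw [h5]
      have h6 : (∑ i ∈ MM n k, ((n + i).factorization p : ℝ)) + ((k / p : ℕ) : ℝ) ≤
        (k.factorial.factorization p : ℝ) + ((MM n k).filter (fun i => p ∣ n + i)).card := by
        exact_mod_cast h4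
      linarith
    · rw [if_neg hpr]
      have h4 := val_sum n k p hk (PP_prime hp) (PP_le hp)
      have h5 : ∑ i ∈ MM n k, (if (p ≤ r ∧ p ∣ n + i) then (1:ℝ) else 0) = 0 := by
        apply sum_eq_zero
        intro x _
        rw [if_neg (by tauto)]
      rw [h5]
      have h6 : (∑ i ∈ MM n k, ((n + i).factorization p : ℝ)) ≤
        (k.factorial.factorization p : ℝ) := by exact_mod_cast h4
      linarith
  refine le_trans (sum_le_sum h3) ?_
  simp_rw [sub_mul]
  rw [sum_sub_distrib]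
  have h7 : ∑ p ∈ PP k, (k.factorial.factorization p : ℝ) * Real.log p =
      Real.log (k.factorial : ℝ) := by
    rw [Pool.Agent.Helper170.Mertens.log_factorial_eq]
    rfl
  have h8 : Real.log (k.factorial : ℝ) ≤ k * Real.log k := by
    have : (k.factorial : ℝ) ≤ (k : ℝ) ^ k := by exact_mod_cast Nat.factorial_le_pow k
    have h4 := Real.log_le_log (by exact_mod_cast Nat.factorial_pos k) this
    rwa [Real.log_pow] at h4
  have h9 : k * AA r - TT r ≤ ∑ p ∈ PP k, (if p ≤ r then ((k / p : ℕ) : ℝ) else 0) * Real.log p := by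
    simp_rw [ite_mul, zero_mul]
    rw [← sum_filter]
    have e : (PP k).filter (fun p => p ≤ r) = PP r := by
      ext p
      unfold PP
      simp only [mem_filter, mem_Icc]
      constructor
      · rintro ⟨⟨⟨a, b⟩, c⟩, d⟩
        exact ⟨⟨a, d⟩, c⟩
      · rintro ⟨⟨a, b⟩, c⟩
        exact ⟨⟨⟨a, by omega⟩, c⟩, b⟩
    rw [e]
    unfold AA TT
    rw [mul_sum, ← sum_sub_distrib]
    apply sum_le_sum
    intro p hp
    have h3 : (k : ℝ) / p - 1 ≤ ((k / p : ℕ) : ℝ) := by
      have := Nat.lt_floor_add_one ((k : ℝ) / p)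
      rw [Nat.floor_div_natCast, Nat.floor_natCast] at this
      linarith
    calc k * (Real.log p / p) - Real.log p = (k / p - 1) * Real.log p := by ring
      _ ≤ _ := mul_le_mul_of_nonneg_right h3 (log_nonneg' p)
  rw [h7]
  linarith

end Pool.Agent.Helper46_SS
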