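import Mathlib
import Pool.Agent.Helper46_SS.Moments

/-! The main inequality for the proportion of smooth numbers. -/

set_option autoImplicit false

open Finset

namespace Pool.Agent.Helper46_SS

lemma sqrt_log (k : ℕ) (hk : 1 ≤ k) :
    2 * Real.log (Nat.sqrt k : ℕ) ≤ Real.log k ∧
      Real.log k ≤ 2 * Real.log (Nat.sqrt k : ℕ) + 2 * Real.log 2 := by
  have h0 : 1 ≤ Nat.sqrt k := Nat.sqrt_pos.2 hk
  have h1 : Nat.sqrt k ^ 2 ≤ k := Nat.sqrt_le' k
  have h2 : k < (Nat.sqrt k + 1) ^ 2 := Nat.lt_succ_sqrt' k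
  have h3 : k ≤ (2 * Nat.sqrt k) ^ 2 := by nlinarith
  constructor
  · have := Real.log_le_log (x := ((Nat.sqrt k ^ 2 : ℕ) : ℝ)) (y := k) (by positivity)
      (by exact_mod_cast h1)
    push_cast at this
    rw [Real.log_pow] at this
    exact_mod_cast this
  · have := Real.log_le_log (x := (k : ℝ)) (y := (((2 * Nat.sqrt k) ^ 2 : ℕ) : ℝ))
      (by exact_mod_cast hk) (by exact_mod_cast h3)
    push_cast at this
    rw [Real.log_pow, Real.log_mul (by norm_num) (by positivity)] at this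
    push_cast at this
    linarith

lemma MM_card_le (n k : ℕ) : (MM n k).card ≤ k := by
  unfold MM
  refine le_trans (card_filter_le _ _) ?_
  simp

lemma MM_sub (n k : ℕ) : MM n k ⊆ Icc 1 k := filter_subset _ _

/-- Cauchy-Schwarz against a set of density `σ`. -/
lemma cs_density (k : ℕ) (hk : 1 ≤ k) (S : Finset ℕ) (hS : S ⊆ Icc 1 k) (g : ℕ → ℝ) (σ V G : ℝ)
    (hσ : σ = (S.card : ℝ) / k) (hV : ∑ i ∈ Icc 1 k, g i ^ 2 ≤ V)
    (hG : ∑ i ∈ Icc 1 k, g i ≤ G) :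
    ∑ i ∈ S, g i ≤ Real.sqrt (V * (k * (σ * (1 - σ)))) + σ * G := by
  have hk0 : (0 : ℝ) < k := by exact_mod_cast hk
  have hcard : (S.card : ℝ) = σ * k := by rw [hσ]; field_simp
  have hσ0 : 0 ≤ σ := by rw [hσ]; positivity
  set u : ℕ → ℝ := fun i => (if i ∈ S then 1 else 0) - σ with hu
  have h1 : ∑ i ∈ S, g i = ∑ i ∈ Icc 1 k, g i * u i + σ * ∑ i ∈ Icc 1 k, g i := by
    rw [mul_sum, ← sum_add_distrib]
    have : ∀ i ∈ Icc 1 k, g i * u i + σ * g i = if i ∈ S then g i else 0 := by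
      intro i _
      simp only [hu]
      split_ifs <;> ring
    rw [sum_congr rfl this, ← sum_filter, filter_mem_eq_inter, inter_eq_right.2 hS]
  have h2 : ∑ i ∈ Icc 1 k, u i ^ 2 = k * (σ * (1 - σ)) := by
    have : ∀ i ∈ Icc 1 k, u i ^ 2 = (if i ∈ S then (1 - 2 * σ) else 0) + σ ^ 2 := by
      intro i _
      simp only [hu]
      split_ifs <;> ring
    rw [sum_congr rfl this, sum_add_distrib, ← sum_filter, filter_mem_eq_inter,
      inter_eq_right.2 hS, sum_const, sum_const, nsmul_eq_mul, nsmul_eq_mul, hcard]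
    simp only [Nat.card_Icc, add_tsub_cancel_right]
    ring
  have h3 : (∑ i ∈ Icc 1 k, g i * u i) ^ 2 ≤ V * (k * (σ * (1 - σ))) := by
    refine le_trans (sum_mul_sq_le_sq_mul_sq _ _ _) ?_
    rw [h2]
    apply mul_le_mul_of_nonneg_right hV
    rw [← h2]
    exact sum_nonneg (fun i _ => sq_nonneg _)
  have h4 : ∑ i ∈ Icc 1 k, g i * u i ≤ Real.sqrt (V * (k * (σ * (1 - σ)))) :=
    Real.le_sqrt_of_sq_le h3
  rw [h1]
  have h5 := mul_le_mul_of_nonneg_left hG hσ0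
  linarith

lemma sqrt_split (k L D₁ y : ℝ) (hk : 0 ≤ k) (hL : 0 ≤ L) (hD : 0 ≤ D₁) (hy0 : 0 ≤ y)
    (hy1 : y ≤ 1) : Real.sqrt (k * (L ^ 2 / 8 + D₁ * L) * (k * y)) ≤
      k * L * Real.sqrt (y / 8) + k * Real.sqrt D₁ * Real.sqrt L := by
  have e1 : k * (L ^ 2 / 8 + D₁ * L) * (k * y) =
      (k * L) ^ 2 * (y / 8) + k ^ 2 * (D₁ * L) * y := by ring
  rw [e1]
  apply Real.sqrt_le_iff.2
  have ha : 0 ≤ Real.sqrt (y / 8) := Real.sqrt_nonneg _
  have hb : 0 ≤ Real.sqrt D₁ := Real.sqrt_nonneg _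
  have hc : 0 ≤ Real.sqrt L := Real.sqrt_nonneg _
  refine ⟨add_nonneg (mul_nonneg (mul_nonneg hk hL) ha) (mul_nonneg (mul_nonneg hk hb) hc), ?_⟩
  have h1 : Real.sqrt (y / 8) ^ 2 = y / 8 := Real.sq_sqrt (by linarith)
  have h2 : Real.sqrt D₁ ^ 2 = D₁ := Real.sq_sqrt hD
  have h3 : Real.sqrt L ^ 2 = L := Real.sq_sqrt hL
  generalize Real.sqrt (y / 8) = A at *
  generalize Real.sqrt D₁ = B at *
  generalize Real.sqrt L = E at *
  have h4 : 0 ≤ k * L * A * (k * B * E) :=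
    mul_nonneg (mul_nonneg (mul_nonneg hk hL) ha) (mul_nonneg (mul_nonneg hk hb) hc)
  have h6 : 0 ≤ k ^ 2 * (D₁ * L) := mul_nonneg (sq_nonneg k) (mul_nonneg hD hL)
  have h5 : k ^ 2 * (D₁ * L) * y ≤ k ^ 2 * (D₁ * L) * 1 := mul_le_mul_of_nonneg_left hy1 h6
  calc (k * L) ^ 2 * (y / 8) + k ^ 2 * (D₁ * L) * y
      ≤ (k * L) ^ 2 * (y / 8) + k ^ 2 * (D₁ * L) := by linarith
    _ = (k * L) ^ 2 * A ^ 2 + k ^ 2 * (B ^ 2 * E ^ 2) := by rw [h1, h2, h3]
    _ ≤ (k * L * A + k * B * E) ^ 2 := by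
        have : (k * L * A + k * B * E) ^ 2 = (k * L) ^ 2 * A ^ 2 + k ^ 2 * (B ^ 2 * E ^ 2) +
          2 * (k * L * A * (k * B * E)) := by ring
        linarith

lemma final_div (k L a σ R P Q : ℝ) (hk : 0 < k) (hL1 : 1 ≤ L) (hP : 0 ≤ P)
    (h : a * σ * (k * L) ≤ (1 / 2 + σ / 2 + R) * (k * L) + k * (P + Q * Real.sqrt L)) :
    a * σ ≤ 1 / 2 + σ / 2 + R + (P + Q) / Real.sqrt L := by
  have hL0 : 0 < L := by linarith
  have hsL : 1 ≤ Real.sqrt L := by rw [Real.one_le_sqrt]; exact hL1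
  have hsLL : Real.sqrt L * Real.sqrt L = L := Real.mul_self_sqrt hL0.le
  have hs0 : 0 < Real.sqrt L := by linarith
  have e : (P + Q) / Real.sqrt L * (k * L) = (P + Q) * k * Real.sqrt L := by
    rw [div_mul_eq_mul_div, div_eq_iff hs0.ne']
    calc (P + Q) * (k * L) = (P + Q) * (k * (Real.sqrt L * Real.sqrt L)) := by rw [hsLL]
      _ = _ := by ring
  have h1 : P * 1 ≤ P * Real.sqrt L := mul_le_mul_of_nonneg_left hsL hP
  have h3 : k * (P * 1) ≤ k * (P * Real.sqrt L) := mul_le_mul_of_nonneg_left h1 hk.le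
  have hfin2 : a * σ * (k * L) ≤ (1 / 2 + σ / 2 + R + (P + Q) / Real.sqrt L) * (k * L) := by
    have : (1 / 2 + σ / 2 + R + (P + Q) / Real.sqrt L) * (k * L) =
      (1 / 2 + σ / 2 + R) * (k * L) + (P + Q) / Real.sqrt L * (k * L) := by ring
    rw [this, e]
    have : k * (P + Q * Real.sqrt L) ≤ (P + Q) * k * Real.sqrt L := by linarith
    linarith
  exact le_of_mul_le_mul_right hfin2 (by positivity)

/-- The main inequality. -/
theorem main_ineq : ∃ D : ℝ, 0 ≤ D ∧ ∀ (k n : ℕ) (a : ℝ), 3 ≤ k → (k : ℝ) ^ a ≤ n →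
    a * ((MM n k).card / k : ℝ) ≤ 1 / 2 + ((MM n k).card / k : ℝ) / 2 +
      Real.sqrt (((MM n k).card / k : ℝ) * (1 - ((MM n k).card / k : ℝ)) / 8) +
        D / Real.sqrt (Real.log k) := by
  obtain ⟨C, hC0, hC⟩ := AB_bound
  set D₀ : ℝ := C + Real.log 2 with hD₀
  have hl2 : 0 ≤ Real.log 2 := Real.log_nonneg (by norm_num)
  have hD₀0 : 0 ≤ D₀ := by positivity
  set D₁ : ℝ := D₀ ^ 2 + C / 2 + 4 with hD₁
  have hD₁0 : 0 ≤ D₁ := by positivity
  refine ⟨2 * D₀ + 4 + Real.sqrt D₁, by positivity, ?_⟩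
  intro k n a hk hn
  have hk1 : 1 ≤ k := by omega
  have hk0 : (0 : ℝ) < k := by exact_mod_cast hk1
  set L := Real.log k with hL
  have hL1 : 1 ≤ L := by
    rw [hL, Real.le_log_iff_exp_le hk0]
    have : Real.exp 1 ≤ 3 := by linarith [Real.exp_one_lt_d9]
    exact le_trans this (by exact_mod_cast hk)
  have hL0 : 0 < L := by linarith
  set r := Nat.sqrt k with hr
  have hr1 : 1 ≤ r := Nat.sqrt_pos.2 hk1
  have hrk : r ≤ k := Nat.sqrt_le_self k
  obtain ⟨hs1, hs2⟩ := sqrt_log k hk1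
  obtain ⟨hA, hB⟩ := hC r hr1
  have hA' : |AA r - L / 2| ≤ D₀ := by
    have := abs_le.1 hA
    rw [abs_le]
    constructor
    · linarith [this.1]
    · linarith [this.2]
  have hlr : 0 ≤ Real.log (r : ℕ) := Real.log_natCast_nonneg r
  have hBr : BB r ≤ L ^ 2 / 8 + C / 2 * L := by
    have h1 : Real.log (r : ℕ) ≤ L / 2 := by linarith
    nlinarith
  -- theta
  have hlog4 : Real.log 4 ≤ 1.4 := by
    have : (4 : ℝ) = 2 ^ 2 := by norm_num
    rw [this, Real.log_pow]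
    push_cast
    linarith [Real.log_two_lt_d9]
  have hlog40 : 0 ≤ Real.log 4 := Real.log_nonneg (by norm_num)
  have hT := TT_le r
  have hT0 := TT_nonneg r
  have hr2 : (r : ℝ) ^ 2 ≤ k := by exact_mod_cast Nat.sqrt_le' k
  have hr0 : (1 : ℝ) ≤ r := by exact_mod_cast hr1
  have hrk' : (r : ℝ) ≤ k := by exact_mod_cast hrk
  have hT1 : TT r ≤ 1.4 * r := le_trans hT (mul_le_mul_of_nonneg_right hlog4 (by positivity))
  have hTk : TT r ≤ 1.4 * k := by linarith [mul_le_mul_of_nonneg_left hrk' (show (0:ℝ) ≤ 1.4 by norm_num)]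
  have hT2 : TT r ^ 2 ≤ 2 * k := by nlinarith
  set M : ℝ := ((MM n k).card : ℝ) with hM
  set σ : ℝ := M / k with hσ
  have hM0 : 0 ≤ M := Nat.cast_nonneg _
  have hσ0 : 0 ≤ σ := by positivity
  have hMk : M ≤ k := by rw [hM]; exact_mod_cast MM_card_le n k
  have hσ1 : σ ≤ 1 := by rw [hσ, div_le_one hk0]; exact hMk
  have hMσ : M = σ * k := by rw [hσ]; field_simp
  -- variance
  have hV := variance n k r (L / 2) (by positivity)
  have hV' : ∑ i ∈ Icc 1 k, (YY n r i - L / 2) ^ 2 ≤ k * (L ^ 2 / 8 + D₁ * L) := by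
    refine le_trans hV ?_
    have h1 : (AA r - L / 2) ^ 2 ≤ D₀ ^ 2 := sq_le_sq' (abs_le.1 hA').1 (abs_le.1 hA').2
    have h2 : k * (AA r - L / 2) ^ 2 ≤ k * D₀ ^ 2 := mul_le_mul_of_nonneg_left h1 hk0.le
    have h3 : k * BB r ≤ k * (L ^ 2 / 8 + C / 2 * L) := mul_le_mul_of_nonneg_left hBr hk0.le
    have h4 : 2 * (L / 2) * TT r ≤ L * (2 * k) := by
      have h41 : TT r ≤ 2 * k := by linarith
      have h42 := mul_le_mul_of_nonneg_left h41 hL0.le
      linarith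
    have h5 : k * D₀ ^ 2 ≤ k * (D₀ ^ 2 * L) := by
      apply mul_le_mul_of_nonneg_left _ hk0.le
      nlinarith [sq_nonneg D₀]
    have h6 : 2 * (k : ℝ) ≤ 2 * k * L := by
      have := mul_le_mul_of_nonneg_left hL1 (show (0:ℝ) ≤ 2 * k by positivity)
      linarith
    have h7 : (k : ℝ) * (L ^ 2 / 8 + D₁ * L) =
      k * (D₀ ^ 2 * L) + k * (L ^ 2 / 8 + C / 2 * L) + 4 * k * L := by rw [hD₁]; ring
    rw [h7]
    linarith
  have hG : ∑ i ∈ Icc 1 k, (YY n r i - L / 2) ≤ k * (D₀ + 2) := by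
    rw [sum_sub_distrib]
    have h1 := sum_YY_le n k r
    have h2 : ∑ i ∈ Icc 1 k, L / 2 = k * (L / 2) := by
      rw [sum_const, nsmul_eq_mul]; simp
    rw [h2]
    have h3 : k * AA r ≤ k * (L / 2 + D₀) :=
      mul_le_mul_of_nonneg_left (by linarith [(abs_le.1 hA').2]) hk0.le
    linarith
  have hcs := cs_density k hk1 (MM n k) (MM_sub n k) (fun i => YY n r i - L / 2) σ _ _
    (by rw [hσ]) hV' hG
  have hlp := large_part n k r hk1 hrk
  -- lower bound for the logs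
  have hlow : M * (a * L) ≤ ∑ i ∈ MM n k, Real.log ((n + i : ℕ) : ℝ) := by
    rw [hM, ← nsmul_eq_mul, ← sum_const]
    apply sum_le_sum
    intro i hi
    have hi1 := (mem_Icc.1 (MM_sub n k hi)).1
    have h1 : (k : ℝ) ^ a ≤ ((n + i : ℕ) : ℝ) := by
      push_cast
      have : (0:ℝ) ≤ i := Nat.cast_nonneg i
      linarith
    have h2 := Real.log_le_log (Real.rpow_pos_of_pos hk0 a) h1
    rw [Real.log_rpow hk0] at h2
    exact h2
  rw [sum_sub_distrib] at hlp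
  have hYs : ∑ i ∈ MM n k, (YY n r i - L / 2) = ∑ i ∈ MM n k, YY n r i - M * (L / 2) := by
    rw [sum_sub_distrib, sum_const, nsmul_eq_mul]
  rw [hYs] at hcs
  -- square root
  have hy0 : 0 ≤ σ * (1 - σ) := mul_nonneg hσ0 (by linarith only [hσ1])
  have hy1 : σ * (1 - σ) ≤ 1 := by nlinarith only [hσ0, hσ1]
  have hsq := sqrt_split k L D₁ (σ * (1 - σ)) hk0.le hL0.le hD₁0 hy0 hy1
  have hkA : k * L - k * AA r ≤ k * (L / 2 + D₀) := by
    have h1 : L - AA r ≤ L / 2 + D₀ := by linarith only [(abs_le.1 hA').1]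
    have h2 := mul_le_mul_of_nonneg_left h1 hk0.le
    linarith only [h2]
  have htot : M * (a * L) ≤ k * (L / 2 + D₀) + 2 * k + M * (L / 2) +
      (k * L * Real.sqrt (σ * (1 - σ) / 8) + k * Real.sqrt D₁ * Real.sqrt L) +
        σ * (k * (D₀ + 2)) := by
    linarith only [hlow, hlp, hcs, hsq, hkA, hTk, hk0]
  have hsσ : σ * (k * (D₀ + 2)) ≤ k * (D₀ + 2) := by
    have h0 : 0 ≤ k * (D₀ + 2) := mul_nonneg hk0.le (by linarith only [hD₀0])
    exact mul_le_of_le_one_left h0 hσ1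
  -- divide by k L
  have e1 : a * σ * (k * L) = M * (a * L) := by rw [hMσ]; ring
  have e2 : M * (L / 2) = σ / 2 * (k * L) := by rw [hMσ]; ring
  refine final_div k L a σ _ (2 * D₀ + 4) (Real.sqrt D₁) hk0 hL1 (by linarith only [hD₀0]) ?_
  rw [e1]
  rw [e2] at htot
  linarith only [htot, hsσ]

end Pool.Agent.Helper46_SS
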